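import Pool.Agent.Helper98.Sub.ExactFAN
import Pool.Agent.Helper44.Sub.ExtGpd

/-!
Block S6 of MP_bdf835_lc (stage 2): the middle layer over an exact quotient action. The engine with
sheets is a hypothesis here.
-/

set_option autoImplicit false

namespace Pool.Agent.Helper98.Sub

open Pool.Agent.Helper44.Sub

/-- The statement of the engine with sheets. -/
def EngineNStmt : Prop :=
  ∀ (X G : Type) [MeasurableSpace X] [Group G] [Countable G] (A : RAct X G) (N : Subgroup G)
    [N.Normal] (J : ℕ → Gpd A) (δ : ℕ → X → G),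
    (∀ t, MF (δ t)) → (∀ t, ∃ T : Finset G, ∀ x, δ t x ∈ T) →
    (∀ t, InvN N (J t)) →
    (∀ t x s, (J t).rel x s →
      (J (t + 1)).rel (A.act x (δ t x)) ((δ t x)⁻¹ * s * δ t (A.act x s))) →
    (∀ t x ν, ν ∈ N → (J t).rel x ν → δ t (A.act x ν) = δ t x) →
    (∀ t, ∃ D, FAN N (J t) D) →
    ∃ w : ℕ → X → G, (∀ m, MF (w m)) ∧ (∀ m, ∃ T : Finset G, ∀ x, w m x ∈ T) ∧
      ∀ x s, (∃ t, (J t).rel (A.act x (Dl A δ t x))
          ((Dl A δ t x)⁻¹ * s * Dl A δ t (A.act x s))) →
        {m | (w m x)⁻¹ * s * w m (A.act x s) ∉ N}.Finite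

variable {X G : Type} [MeasurableSpace X] [Group G]

/-- a sequence of finite subsets of a normal subgroup, each containing the conjugates of the
previous ones by the given finite sets -/
theorem exists_tower (K : Subgroup G) [K.Normal] (Sg : ℕ → Finset G) (F₀ : ℕ → Finset G)
    (hF₀ : ∀ m, ∀ g ∈ F₀ m, g ∈ K) :
    ∃ F : ℕ → Finset G, (∀ m, F₀ m ⊆ F m) ∧ (∀ m, ∀ g ∈ F m, g ∈ K) ∧
      ∀ t m, t < m → ∀ a ∈ Sg t, ∀ b ∈ Sg m, ∀ g ∈ F t, b⁻¹ * (a * g * a⁻¹) * b ∈ F m := by
  classical
  let step : ℕ → Finset G → Finset G := fun m P =>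
    F₀ m ∪ (Sg m ×ˢ P).image (fun p => p.1⁻¹ * p.2 * p.1)
  let P : ℕ → Finset G := fun n => Nat.rec ∅
    (fun m P => P ∪ (Sg m ×ˢ step m P).image (fun p => p.1 * p.2 * p.1⁻¹)) n
  have hPs : ∀ m, P (m + 1) =
      P m ∪ (Sg m ×ˢ step m (P m)).image (fun p => p.1 * p.2 * p.1⁻¹) := fun _ => rfl
  have hPm : ∀ m n, m ≤ n → P m ⊆ P n := by
    intro m n h
    exact monotone_nat_of_le_succ (fun k => by rw [hPs]; exact Finset.subset_union_left) h
  have hstepK : ∀ m (Q : Finset G), (∀ g ∈ Q, g ∈ K) → ∀ g ∈ step m Q, g ∈ K := by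
    intro m Q hQ g hg
    rcases Finset.mem_union.1 hg with h | h
    · exact hF₀ m g h
    · obtain ⟨⟨a, q⟩, h1, rfl⟩ := Finset.mem_image.1 h
      have h2 := Subgroup.Normal.conj_mem inferInstance (H := K) q
        (hQ q (Finset.mem_product.1 h1).2) a⁻¹
      simpa using h2
  have hPK : ∀ m, ∀ g ∈ P m, g ∈ K := by
    intro m
    induction m with
    | zero => intro g hg; exact absurd hg (Finset.notMem_empty g)
    | succ m ih =>
      intro g hg
      rw [hPs] at hg
      rcases Finset.mem_union.1 hg with h | h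
      · exact ih g h
      · obtain ⟨⟨a, q⟩, h1, rfl⟩ := Finset.mem_image.1 h
        exact Subgroup.Normal.conj_mem inferInstance (H := K) q
          (hstepK m _ ih q (Finset.mem_product.1 h1).2) a
  refine ⟨fun m => step m (P m), fun m => Finset.subset_union_left,
    fun m => hstepK m _ (hPK m), ?_⟩
  intro t m htm a ha b hb g hg
  have h1 : a * g * a⁻¹ ∈ P (t + 1) := by
    rw [hPs]
    exact Finset.mem_union_right _
      (Finset.mem_image.2 ⟨(a, g), Finset.mem_product.2 ⟨ha, hg⟩, rfl⟩)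
  have h2 := hPm (t + 1) m htm h1
  exact Finset.mem_union_right _
    (Finset.mem_image.2 ⟨(b, a * g * a⁻¹), Finset.mem_product.2 ⟨hb, h2⟩, rfl⟩)

/-- S6 (middle layer over an exact quotient action), from the engine with sheets. -/
theorem HHN_of_exact_of (hE : EngineNStmt) [Countable G] {A : RAct X G} (hr : Rich A)
    {X' G' : Type} [MeasurableSpace X'] [Group G'] (A' : RAct X' G') (π : G →* G')
    (hπ : Function.Surjective π) (f : X → X') (hf : Measurable f)
    (hfe : ∀ x s, f (A.act x s) = A'.act (f x) (π s)) (hH : HH A') (N : Subgroup G) [N.Normal]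
    (hN : N ≤ π.ker)
    (hloc : ∀ M : Subgroup G, M ≤ π.ker → M.FG → ∃ D, GAs ↥(M.map (QuotientGroup.mk' N)) D) :
    HHN A N := by
  classical
  obtain ⟨w, hw1, hw2, hw3⟩ := hH
  choose T hT using hw2
  set l : G' → G := Function.surjInv hπ with hl
  have hlπ : ∀ g', π (l g') = g' := Function.surjInv_eq hπ
  set σ : ℕ → X → G := fun m x => l (w m (f x)) with hσdef
  have hσ : ∀ m, MF (σ m) := by
    intro m g
    by_cases h : l (π g) = g
    · have : {x | σ m x = g} = f ⁻¹' {y | w m y = π g} := by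
        ext x
        simp only [Set.mem_ofPred_eq, Set.mem_preimage, hσdef]
        constructor
        · intro h'
          rw [← h', hlπ]
        · intro h'
          rw [h', h]
      rw [this]
      exact hf (hw1 m (π g))
    · have : {x | σ m x = g} = ∅ := by
        ext x
        simp only [Set.mem_ofPred_eq, Set.mem_empty_iff_false, hσdef, iff_false]
        intro h'
        apply h
        rw [← h', hlπ]
      rw [this]
      exact MeasurableSet.empty
  set Sg : ℕ → Finset G := fun m => (T m).image l with hSg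
  have hσS : ∀ m x, σ m x ∈ Sg m := fun m x => Finset.mem_image_of_mem l (hT m (f x))
  have hinv : ∀ m x, ∀ n ∈ π.ker, σ m (A.act x n) = σ m x := by
    intro m x n hn
    show l (w m (f (A.act x n))) = l (w m (f x))
    rw [hfe, MonoidHom.mem_ker.1 hn, A'.one]
  -- moves in the kernel, before another move
  have hact : ∀ m x ν s, ν ∈ π.ker → σ m (A.act (A.act x ν) s) = σ m (A.act x s) := by
    intro m x ν s hν
    have h1 : A.act (A.act x ν) s = A.act (A.act x s) (s⁻¹ * ν * s) := by
      rw [A.mul, A.mul]; congr 1; group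
    rw [h1]
    refine hinv m _ _ ?_
    have := Subgroup.Normal.conj_mem inferInstance (H := π.ker) ν hν s⁻¹
    simpa using this
  obtain ⟨S, hSmono, hSex⟩ := exists_exhaust G
  have hSmono' : ∀ m n, m ≤ n → S m ⊆ S n := fun m n h => monotone_nat_of_le_succ hSmono h
  set F₀ : ℕ → Finset G := fun m => (((Sg m) ×ˢ ((S m) ×ˢ (Sg m))).image
      (fun p : G × G × G => p.1⁻¹ * p.2.1 * p.2.2)).filter (fun g => g ∈ π.ker) with hF₀
  obtain ⟨F, hF1, hF2, hF3⟩ := exists_tower π.ker Sg F₀ (fun m g hg => (Finset.mem_filter.1 hg).2)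
  set M : ℕ → Subgroup G := fun m => Subgroup.closure (F m : Set G) with hM
  have hMker : ∀ m, M m ≤ π.ker := fun m => (Subgroup.closure_le _).2 fun g hg => hF2 m g hg
  have hMfg : ∀ m, (M m).FG := fun m => (Subgroup.fg_iff _).2 ⟨F m, rfl, (F m).finite_toSet⟩
  have hconj : ∀ t m, t < m → ∀ a ∈ Sg t, ∀ b ∈ Sg m, ∀ g ∈ M t, b⁻¹ * (a * g * a⁻¹) * b ∈ M m := by
    intro t m htm a ha b hb g hg
    have h1 : M t ≤ (M m).comap (MulAut.conj (b⁻¹ * a)).toMonoidHom := by
      refine (Subgroup.closure_le _).2 fun g hg => ?_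
      have h2 := Subgroup.subset_closure (hF3 t m htm a ha b hb g hg)
      show (MulAut.conj (b⁻¹ * a)) g ∈ M m
      rw [MulAut.conj_apply]
      have h3 : b⁻¹ * a * g * (b⁻¹ * a)⁻¹ = b⁻¹ * (a * g * a⁻¹) * b := by group
      rw [h3]
      exact h2
    have h4 : (MulAut.conj (b⁻¹ * a)) g ∈ M m := h1 hg
    rw [MulAut.conj_apply] at h4
    have h3 : b⁻¹ * a * g * (b⁻¹ * a)⁻¹ = b⁻¹ * (a * g * a⁻¹) * b := by group
    rwa [h3] at h4
  set J : ℕ → Gpd A := fun t =>
    { rel := fun x s => ∀ m, t ≤ m → (σ m x)⁻¹ * s * σ m (A.act x s) ∈ M m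
      one := by
        intro x m _
        rw [cocycle_one]
        exact (M m).one_mem
      mul := by
        intro x s s' h h' m hm
        rw [cocycle_mul]
        exact (M m).mul_mem (h m hm) (h' m hm)
      inv := by
        intro x s h m hm
        rw [cocycle_inv]
        exact (M m).inv_mem (h m hm)
      meas := by
        intro s
        have : {x | ∀ m, t ≤ m → (σ m x)⁻¹ * s * σ m (A.act x s) ∈ M m} =
            ⋂ (m : ℕ) (_ : t ≤ m), {x | (σ m x)⁻¹ * s * σ m (A.act x s) ∈ (M m : Set G)} := by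
          ext x
          simp
        rw [this]
        exact MeasurableSet.iInter fun m => MeasurableSet.iInter fun _ =>
          measurableSet_cocycle A (σ m) (hσ m) s _ } with hJ
  have hJN : ∀ t, InvN N (J t) := by
    intro t x ν s hν _
    have hνK := hN hν
    constructor
    · intro h m hm
      rw [hinv m x ν hνK, hact m x ν s hνK]
      exact h m hm
    · intro h m hm
      have := h m hm
      rwa [hinv m x ν hνK, hact m x ν s hνK] at this
  have hMJ : ∀ t x, ∀ μ ∈ M t, (J t).rel x (σ t x * μ * (σ t x)⁻¹) := by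
    intro t x μ hμ m hm
    have hK : σ t x * μ * (σ t x)⁻¹ ∈ π.ker :=
      Subgroup.Normal.conj_mem inferInstance (H := π.ker) μ (hMker t hμ) _
    rw [hinv m x _ hK]
    rcases hm.eq_or_lt with rfl | hlt
    · have h1 : (σ t x)⁻¹ * (σ t x * μ * (σ t x)⁻¹) * σ t x = μ := by group
      rw [h1]
      exact hμ
    · exact hconj t m hlt _ (hσS t x) _ (hσS m x) μ hμ
  obtain ⟨v, hv1, hv2, hv3⟩ := hE X G A N J (fun _ _ => 1)
    (fun _ b => MeasurableSet.const (1 = b)) (fun _ => ⟨{1}, fun _ => Finset.mem_singleton_self 1⟩)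
    hJN
    (by
      intro t x s h
      show (J (t + 1)).rel (A.act x 1) (1⁻¹ * s * 1)
      rw [A.one, inv_one, one_mul, mul_one]
      intro m hm
      exact h m (by omega))
    (fun _ _ _ _ _ => rfl)
    (by
      intro t
      obtain ⟨D, hD⟩ := hloc (M t) (hMker t) (hMfg t)
      exact ⟨D, FAN_ext hr π.ker N (M t) hN (hMker t) D hD (J t) (hJN t) (σ t) (hσ t) (Sg t)
        (hσS t) (hinv t) (fun x s h => h t le_rfl) (hMJ t)⟩)
  refine ⟨v, hv1, hv2, fun x s => hv3 x s ?_⟩
  have hDl : ∀ t x, Dl A (fun _ _ => (1 : G)) t x = 1 := by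
    intro t
    induction t with
    | zero => intro x; rfl
    | succ t ih =>
      intro x
      show Dl A (fun _ _ => (1 : G)) t x * 1 = 1
      rw [ih, mul_one]
  have hfin := hw3 (f x) (π s)
  obtain ⟨t0, ht0⟩ := hfin.bddAbove
  obtain ⟨t1, ht1⟩ := hSex s
  refine ⟨max (t0 + 1) t1, ?_⟩
  rw [hDl, hDl, A.one, inv_one, one_mul, mul_one]
  intro m hm
  have h1 : t0 < m := by have := le_max_left (t0 + 1) t1; omega
  have h2 : s ∈ S m := hSmono' t1 m ((le_max_right _ _).trans hm) ht1
  apply Subgroup.subset_closure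
  refine hF1 m (Finset.mem_filter.2 ⟨Finset.mem_image.2 ⟨(σ m x, s, σ m (A.act x s)), ?_, rfl⟩, ?_⟩)
  · simp only [Finset.mem_product]
    exact ⟨hσS m x, h2, hσS m _⟩
  have huncut : w m (f x) = π s * w m (A'.act (f x) (π s)) := by
    by_contra hne
    have := ht0 hne
    omega
  rw [MonoidHom.mem_ker, map_mul, map_mul, map_inv]
  simp only [hσdef]
  rw [hlπ, hlπ, hfe, huncut]
  group

end Pool.Agent.Helper98.Sub
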