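import Pool.Agent.Helper44.Sub.Defs2
import Pool.Agent.Helper44.Sub.FArich

/-!
Block S6 of MP_bdf835_lc (stage 2), first part: finite asymptotic dimension modulo a normal
subgroup of a groupoid over an exact quotient action.
-/

set_option autoImplicit false

namespace Pool.Agent.Helper98.Sub

open Pool.Agent.Helper44.Sub Pool.Agent.Helper44.Sub.B5

variable {X G : Type} [MeasurableSpace X] [Group G]

/-- the model on the group, modulo `N` -/
theorem modelN (N M : Subgroup G) [N.Normal] (D : ℕ) (hM : GAs ↥(M.map (QuotientGroup.mk' N)) D)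
    (RM : Finset ↥M) :
    ∃ (B : Finset ↥M) (c : G → Fin D) (χ : G → ↥M), (∀ g, χ g ∈ B) ∧
      (∀ g, ∀ r ∈ RM, c g = c (g * (r : G)) →
        ((χ g : G))⁻¹ * r * (χ (g * (r : G)) : G) ∈ N) ∧
      ∀ g, ∀ ν : ↥M, (ν : G) ∈ N → c (g * (ν : G)) = c g ∧ χ (g * (ν : G)) = χ g := by
  classical
  -- the quotient map from M
  let b : ↥M → ↥(M.map (QuotientGroup.mk' N)) := fun m =>
    ⟨QuotientGroup.mk' N (m : G), Subgroup.mem_map_of_mem _ m.2⟩
  have hb : ∀ m m', b (m * m') = b m * b m' := by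
    intro m m'
    apply Subtype.ext
    show QuotientGroup.mk' N ((m : G) * (m' : G)) = _
    rw [map_mul]
    rfl
  have hbs : Function.Surjective b := by
    rintro ⟨y, hy⟩
    obtain ⟨m, hm, rfl⟩ := Subgroup.mem_map.1 hy
    exact ⟨⟨m, hm⟩, rfl⟩
  let l : ↥(M.map (QuotientGroup.mk' N)) → ↥M := Function.surjInv hbs
  have hl : ∀ y, b (l y) = y := Function.surjInv_eq hbs
  have hbN : ∀ m m' : ↥M, b m = b m' ↔ ((m : G))⁻¹ * (m' : G) ∈ N := by
    intro m m'
    rw [Subtype.ext_iff]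
    show (QuotientGroup.mk (m : G) : G ⧸ N) = QuotientGroup.mk (m' : G) ↔ _
    exact QuotientGroup.eq
  obtain ⟨B, c, χ, h1, h2⟩ := hM (RM.image b)
  have hq : ∀ g : G, ((g : G ⧸ M).out)⁻¹ * g ∈ M := fun g =>
    QuotientGroup.leftRel_apply.1 (Quotient.exact (Quotient.out_eq (g : G ⧸ M)))
  have hco : ∀ (g : G) (r : ↥M), ((g * (r : G) : G) : G ⧸ M) = (g : G ⧸ M) := by
    intro g r
    exact (QuotientGroup.eq.2 (by simp)).symm
  let q : G → ↥M := fun g => ⟨((g : G ⧸ M).out)⁻¹ * g, hq g⟩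
  have hqr : ∀ (g : G) (r : ↥M), q (g * (r : G)) = q g * r := by
    intro g r
    apply Subtype.ext
    show (((g * (r : G) : G) : G ⧸ M).out)⁻¹ * (g * (r : G)) = ((g : G ⧸ M).out)⁻¹ * g * r
    rw [hco, mul_assoc]
  refine ⟨B.image l, fun g => c (b (q g)), fun g => l (χ (b (q g))),
    fun g => Finset.mem_image_of_mem _ (h1 _), ?_, ?_⟩
  · intro g r hr h
    have h' : c (b (q g)) = c (b (q (g * (r : G)))) := h
    show ((l (χ (b (q g))) : ↥M) : G)⁻¹ * r * ((l (χ (b (q (g * (r : G))))) : ↥M) : G) ∈ N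
    rw [hqr, hb] at h' ⊢
    have h3 := h2 (b (q g)) (b r) (Finset.mem_image_of_mem _ hr) h'
    have h4 : b (l (χ (b (q g)))) = b (r * l (χ (b (q g) * b r))) := by
      rw [hb, hl, hl, h3]
    have h5 := (hbN _ _).1 h4
    simpa [mul_assoc] using h5
  · intro g ν hν
    have h3 : b (q (g * (ν : G))) = b (q g) := by
      rw [hqr]
      refine ((hbN _ _).2 ?_).symm
      simpa using hν
    show c (b (q (g * (ν : G)))) = c (b (q g)) ∧
      l (χ (b (q (g * (ν : G))))) = l (χ (b (q g)))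
    rw [h3]
    exact ⟨rfl, rfl⟩

/-- the model is transported to the space by richness -/
theorem transportN {A : RAct X G} (hr : Rich A) (N M : Subgroup G) [N.Normal] (D : ℕ)
    (hM : GAs ↥(M.map (QuotientGroup.mk' N)) D) (RM FM : Finset ↥M)
    (hFM : ∀ ν ∈ FM, (ν : G) ∈ N) :
    ∃ (B : Finset ↥M) (c : X → Fin D) (χ : X → ↥M), MF c ∧ MF χ ∧ (∀ x, χ x ∈ B) ∧
      (∀ x, ∀ r ∈ RM, c x = c (A.act x (r : G)) →
        ((χ x : G))⁻¹ * r * (χ (A.act x (r : G)) : G) ∈ N) ∧
      ∀ x, ∀ ν ∈ FM, c (A.act x (ν : G)) = c x ∧ χ (A.act x (ν : G)) = χ x := by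
  classical
  obtain ⟨B, c, χ, h1, h2, h3⟩ := modelN N M D hM RM
  let e : (Fin D × ↥B) ≃ Fin (Fintype.card (Fin D × ↥B)) := Fintype.equivFin _
  obtain ⟨v, hv, hvQ⟩ := hr (Fintype.card (Fin D × ↥B))
    (insert 1 ((RM ∪ FM).image (fun r : ↥M => (r : G))))
    (fun f => (∀ r ∈ RM, (e.symm (f 1)).1 = (e.symm (f (r : G))).1 →
      ((((e.symm (f 1)).2 : ↥M)) : G)⁻¹ * r * ((((e.symm (f (r : G))).2 : ↥M)) : G) ∈ N) ∧
      ∀ ν ∈ FM, f (ν : G) = f 1)
    (by
      intro f f' hff hf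
      have e1 : f 1 = f' 1 := hff 1 (by simp)
      have e2 : ∀ r ∈ RM ∪ FM, f (r : G) = f' (r : G) := fun r hr => hff (r : G)
        (Finset.mem_insert_of_mem (Finset.mem_image_of_mem _ hr))
      refine ⟨fun r hrm => ?_, fun ν hν => ?_⟩
      · rw [← e1, ← e2 r (Finset.mem_union_left _ hrm)]
        exact hf.1 r hrm
      · rw [← e1, ← e2 ν (Finset.mem_union_right _ hν)]
        exact hf.2 ν hν)
    ⟨fun g => e (c g, ⟨χ g, h1 g⟩), by
      intro g
      refine ⟨fun r hrm => ?_, fun ν hν => ?_⟩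
      · simp only [mul_one, Equiv.symm_apply_apply]
        exact h2 g r hrm
      · obtain ⟨h4, h5⟩ := h3 g ν (hFM ν hν)
        simp only [mul_one]
        congr 1
        refine Prod.ext h4 (Subtype.ext h5)⟩
  refine ⟨B, fun x => (e.symm (v x)).1, fun x => ((e.symm (v x)).2 : ↥M), ?_, ?_, ?_, ?_, ?_⟩
  · exact MF.map hv (fun k => (e.symm k).1)
  · exact MF.map hv (fun k => ((e.symm k).2 : ↥M))
  · intro x
    exact (e.symm (v x)).2.2
  · intro x r hrm h
    have := (hvQ x).1 r hrm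
    simp only [A.one] at this
    exact this h
  · intro x ν hν
    have := (hvQ x).2 ν hν
    simp only [A.one] at this
    show (e.symm (v (A.act x (ν : G)))).1 = (e.symm (v x)).1 ∧
      ((e.symm (v (A.act x (ν : G)))).2 : ↥M) = ((e.symm (v x)).2 : ↥M)
    rw [this]
    exact ⟨rfl, rfl⟩

/-- the set of the elements of a finite set which satisfy a measurable condition -/
theorem MF.filter {C : Type} [DecidableEq C] (S : Finset C) (P : X → C → Prop)
    [∀ x, DecidablePred (P x)] (hP : ∀ ρ, MeasurableSet {x | P x ρ}) :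
    MF (fun x => S.filter (P x)) := by
  intro U
  by_cases hU : U ⊆ S
  · have h : {x | S.filter (P x) = U} = ⋂ ρ ∈ S, {x | P x ρ ↔ ρ ∈ U} := by
      ext x
      simp only [Set.mem_ofPred_eq, Set.mem_iInter]
      constructor
      · rintro rfl ρ hρ
        simp [hρ]
      · intro h
        ext ρ
        rw [Finset.mem_filter]
        constructor
        · rintro ⟨h1, h2⟩
          exact (h ρ h1).1 h2
        · intro h1
          exact ⟨hU h1, (h ρ (hU h1)).2 h1⟩
    rw [h]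
    refine Finset.measurableSet_biInter S fun ρ _ => ?_
    by_cases hρ : ρ ∈ U
    · have h2 : {x | P x ρ ↔ ρ ∈ U} = {x | P x ρ} := by
        ext x; simp [hρ]
      rw [h2]
      exact hP ρ
    · have h2 : {x | P x ρ ↔ ρ ∈ U} = {x | P x ρ}ᶜ := by
        ext x; simp [hρ]
      rw [h2]
      exact (hP ρ).compl
  · have h : {x | S.filter (P x) = U} = ∅ := by
      ext x
      simp only [Set.mem_ofPred_eq, Set.mem_empty_iff_false, iff_false]
      rintro rfl
      exact hU (Finset.filter_subset _ _)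
    rw [h]
    exact MeasurableSet.empty

/-- Finite asymptotic dimension modulo `N` for a groupoid whose cocycle, given by leaders which do
not see the normal subgroup `K`, takes values in `M ≤ K`. -/
theorem FAN_ext [Countable G] {A : RAct X G} (hr : Rich A) (K N M : Subgroup G) [N.Normal]
    [K.Normal] (hNK : N ≤ K) (hMK : M ≤ K) (D : ℕ)
    (hM : GAs ↥(M.map (QuotientGroup.mk' N)) D) (J : Gpd A) (hJN : InvN N J)
    (σ : X → G) (hσ : MF σ) (S : Finset G) (hS : ∀ x, σ x ∈ S)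
    (hinv : ∀ x, ∀ n ∈ K, σ (A.act x n) = σ x)
    (hJM : ∀ x s, J.rel x s → (σ x)⁻¹ * s * σ (A.act x s) ∈ M)
    (hMJ : ∀ x, ∀ μ ∈ M, J.rel x (σ x * μ * (σ x)⁻¹)) : FAN N J D := by
  classical
  intro R F
  let PR : Finset G := (S ×ˢ R ×ˢ S).image (fun p => p.1⁻¹ * p.2.1 * p.2.2)
  let RM : Finset ↥M := PR.subtype (fun g => g ∈ M)
  let PF : Finset G := (S ×ˢ F ×ˢ S).image (fun p => p.1⁻¹ * p.2.1 * p.2.2)
  let FM : Finset ↥M := (PF.subtype (fun g => g ∈ M)).filter (fun ν => (ν : G) ∈ N)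
  obtain ⟨B, c', χ', hc', hχ', hB, hcoh, hfix⟩ := transportN hr N M D hM RM FM
    (fun ν hν => (Finset.mem_filter.1 hν).2)
  let z : X → X := fun x => A.act x (σ x)
  let c : X → Fin D := fun x => c' (z x)
  let χh : X → G := fun x => σ x * (χ' (z x) : G)
  have hc : MF c := MF.bind hσ (F := fun a x => c' (A.act x a)) (fun a => MF.act hc' A a)
  have hχh : MF χh := by
    refine MF.bind hσ (F := fun a x => a * (χ' (A.act x a) : G)) (fun a => ?_)
    exact MF.map (MF.act hχ' A a) (fun m : ↥M => a * (m : G))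
  -- moves in N do not change anything
  have hact : ∀ x ν s, ν ∈ N → σ (A.act (A.act x ν) s) = σ (A.act x s) := by
    intro x ν s hν
    have h1 : A.act (A.act x ν) s = A.act (A.act x s) (s⁻¹ * ν * s) := by
      rw [A.mul, A.mul]; congr 1; group
    rw [h1]
    refine hinv _ _ (hNK ?_)
    have := Subgroup.Normal.conj_mem inferInstance (H := N) ν hν s⁻¹
    simpa using this
  let Cond : X → G → Prop := fun x ρ => J.rel x (χh x * ρ⁻¹) ∧ σ (A.act x (χh x * ρ⁻¹)) = ρ
  have hCond0 : ∀ x, Cond x (σ x) := by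
    intro x
    have h1 : χh x * (σ x)⁻¹ ∈ K := by
      have := Subgroup.Normal.conj_mem inferInstance (H := K) _ (hMK (χ' (z x)).2) (σ x)
      exact this
    exact ⟨hMJ x _ (χ' (z x)).2, hinv x _ h1⟩
  have hCm : ∀ ρ, MeasurableSet {x | Cond x ρ} := by
    intro ρ
    have h : {x | Cond x ρ} = ⋃ a : G, ({x | χh x = a} ∩
        ({x | J.rel x (a * ρ⁻¹)} ∩ {x | σ (A.act x (a * ρ⁻¹)) = ρ})) := by
      ext x
      simp only [Set.mem_ofPred_eq, Set.mem_iUnion, Set.mem_inter_iff, Cond]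
      constructor
      · rintro ⟨h1, h2⟩
        exact ⟨χh x, rfl, h1, h2⟩
      · rintro ⟨a, rfl, h1, h2⟩
        exact ⟨h1, h2⟩
    rw [h]
    exact MeasurableSet.iUnion fun a => (hχh a).inter ((J.meas _).inter (MF.act hσ A _ ρ))
  let pick : Finset G → G := fun U => if h : U.Nonempty then h.choose else 1
  have hpick : ∀ U : Finset G, U.Nonempty → pick U ∈ U := by
    intro U hU
    show (if h : U.Nonempty then h.choose else 1) ∈ U
    rw [dif_pos hU]
    exact hU.choose_spec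
  let U : X → Finset G := fun x => S.filter (Cond x)
  have hU : MF U := MF.filter S Cond hCm
  let ρ : X → G := fun x => pick (U x)
  have hρ : MF ρ := MF.map hU pick
  have hρU : ∀ x, ρ x ∈ U x := fun x =>
    hpick _ ⟨σ x, Finset.mem_filter.2 ⟨hS x, hCond0 x⟩⟩
  have hρC : ∀ x, Cond x (ρ x) := fun x => (Finset.mem_filter.1 (hρU x)).2
  have hρS : ∀ x, ρ x ∈ S := fun x => (Finset.mem_filter.1 (hρU x)).1
  let χ : X → G := fun x => χh x * (ρ x)⁻¹
  have hχ : MF χ := by
    refine MF.bind hρ (F := fun a x => χh x * a⁻¹) (fun a => ?_)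
    exact MF.map hχh (fun g => g * a⁻¹)
  let T : Finset G := (S ×ˢ B ×ˢ S).image (fun p => p.1 * (p.2.1 : G) * p.2.2⁻¹)
  refine ⟨T, c, χ, hc, hχ, ?_, fun x => (hρC x).1, ?_, ?_⟩
  · intro x
    refine Finset.mem_image.2 ⟨(σ x, χ' (z x), ρ x), ?_, rfl⟩
    simp only [Finset.mem_product]
    exact ⟨hS x, hB _, hρS x⟩
  · intro x r hrR hJr hcc
    set y := A.act x r with hy
    have hm := hJM x r hJr
    set m : ↥M := ⟨(σ x)⁻¹ * r * σ y, hm⟩ with hmdef
    have hmRM : m ∈ RM := by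
      rw [Finset.mem_subtype]
      refine Finset.mem_image.2 ⟨(σ x, r, σ y), ?_, rfl⟩
      simp only [Finset.mem_product]
      exact ⟨hS x, hrR, hS _⟩
    have hpt : A.act (z x) (m : G) = z y := by
      show A.act (A.act x (σ x)) ((σ x)⁻¹ * r * σ y) = A.act (A.act x r) (σ y)
      rw [A.mul, A.mul]
      congr 1
      group
    have h1 := hcoh (z x) m hmRM (by rw [hpt]; exact hcc)
    rw [hpt] at h1
    set ν : G := ((χ' (z x) : G))⁻¹ * m * (χ' (z y) : G) with hν
    have hνM : ν ∈ M := M.mul_mem (M.mul_mem (M.inv_mem (χ' (z x)).2) m.2) (χ' (z y)).2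
    have hrχ : r * χh y = χh x * ν := by
      show r * (σ y * (χ' (z y) : G)) = σ x * (χ' (z x) : G) *
        (((χ' (z x) : G))⁻¹ * ((σ x)⁻¹ * r * σ y) * (χ' (z y) : G))
      group
    have hstep : ∀ a : G, A.act y (χh y * a⁻¹) = A.act (A.act x (χh x * a⁻¹)) (a * ν * a⁻¹) := by
      intro a
      rw [hy, A.mul, A.mul]
      congr 1
      rw [← mul_assoc, hrχ]
      group
    have hconjN : ∀ a : G, a * ν * a⁻¹ ∈ N := fun a =>
      Subgroup.Normal.conj_mem inferInstance (H := N) ν h1 a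
    have hσp : ∀ a : G, σ (A.act y (χh y * a⁻¹)) = σ (A.act x (χh x * a⁻¹)) := by
      intro a
      rw [hstep]
      exact hinv _ _ (hNK (hconjN a))
    have hiff : ∀ a : G, Cond x a ↔ Cond y a := by
      intro a
      constructor
      · rintro ⟨h2, h3⟩
        refine ⟨?_, by rw [hσp, h3]⟩
        have h4 := hMJ (A.act x (χh x * a⁻¹)) ν hνM
        rw [h3] at h4
        have h5 := J.mul x _ _ h2 h4
        have h6 := J.inv x r hJr
        have h7 := J.mul y r⁻¹ (χh x * a⁻¹ * (a * ν * a⁻¹)) h6 (by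
          rw [hy, A.mul, mul_inv_cancel, A.one]; exact h5)
        have h8 : r⁻¹ * (χh x * a⁻¹ * (a * ν * a⁻¹)) = χh y * a⁻¹ := by
          have : χh y = r⁻¹ * (χh x * ν) := by rw [← hrχ]; group
          rw [this]; group
        rwa [h8] at h7
      · rintro ⟨h2, h3⟩
        rw [hσp] at h3
        refine ⟨?_, h3⟩
        have h4 := J.inv _ _ (h3 ▸ hMJ (A.act x (χh x * a⁻¹)) ν hνM)
        have h5 := J.mul x r _ hJr h2
        have h9 : r * (χh y * a⁻¹) = χh x * a⁻¹ * (a * ν * a⁻¹) := by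
          rw [← mul_assoc, hrχ]; group
        rw [h9] at h5
        have h6 := J.mul x _ ((a * ν * a⁻¹)⁻¹) h5 (by
          rw [← A.mul]
          exact h4)
        rwa [mul_inv_cancel_right] at h6
    have hUU : U x = U y := Finset.filter_congr fun a _ => hiff a
    have hρρ : ρ x = ρ y := by
      show pick (U x) = pick (U y)
      rw [hUU]
    show (χh x * (ρ x)⁻¹)⁻¹ * r * (χh y * (ρ y)⁻¹) ∈ N
    have h10 : (χh x * (ρ x)⁻¹)⁻¹ * r * (χh y * (ρ y)⁻¹) = ρ x * ν * (ρ x)⁻¹ := by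
      rw [← hρρ]
      have : (χh x * (ρ x)⁻¹)⁻¹ * r * (χh y * (ρ x)⁻¹) =
          ρ x * (χh x)⁻¹ * (r * χh y) * (ρ x)⁻¹ := by group
      rw [this, hrχ]
      group
    rw [h10]
    exact hconjN _
  · intro x ν hνF hνN hJν
    have h1 : σ (A.act x ν) = σ x := hinv x ν (hNK hνN)
    have hm := hJM x ν hJν
    rw [h1] at hm
    have hconj : (σ x)⁻¹ * ν * σ x ∈ N := by
      have := Subgroup.Normal.conj_mem inferInstance (H := N) ν hνN (σ x)⁻¹
      simpa using this
    have hmFM : (⟨(σ x)⁻¹ * ν * σ x, hm⟩ : ↥M) ∈ FM := by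
      refine Finset.mem_filter.2 ⟨?_, hconj⟩
      rw [Finset.mem_subtype]
      refine Finset.mem_image.2 ⟨(σ x, ν, σ x), ?_, rfl⟩
      simp only [Finset.mem_product]
      exact ⟨hS x, hνF, hS _⟩
    have hpt : A.act (z x) ((σ x)⁻¹ * ν * σ x) = z (A.act x ν) := by
      show A.act (A.act x (σ x)) ((σ x)⁻¹ * ν * σ x) = A.act (A.act x ν) (σ (A.act x ν))
      rw [h1, A.mul, A.mul]
      congr 1
      group
    obtain ⟨h2, h3⟩ := hfix (z x) _ hmFM
    simp only at h2 h3
    rw [hpt] at h2 h3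
    have hχν : χh (A.act x ν) = χh x := by
      show σ (A.act x ν) * (χ' (z (A.act x ν)) : G) = σ x * (χ' (z x) : G)
      rw [h1, h3]
    have hUU : U (A.act x ν) = U x := by
      refine Finset.filter_congr fun a _ => ?_
      show (J.rel (A.act x ν) (χh (A.act x ν) * a⁻¹) ∧
        σ (A.act (A.act x ν) (χh (A.act x ν) * a⁻¹)) = a) ↔
        (J.rel x (χh x * a⁻¹) ∧ σ (A.act x (χh x * a⁻¹)) = a)
      rw [hχν, hact x ν _ hνN, ← hJN x ν _ hνN hJν]
    refine ⟨h2, ?_⟩
    show χh (A.act x ν) * (pick (U (A.act x ν)))⁻¹ = χh x * (pick (U x))⁻¹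
    rw [hχν, hUU]

end Pool.Agent.Helper98.Sub
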